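import Pool.Agent.Y109S.Gen

/-!
# Generic products of two symbol algebras over iterated Laurent series are division algebras
-/

set_option autoImplicit false

open scoped TensorProduct

namespace Pool.Y109S

/-- the value group `ℤ^4` with the lexicographic order -/
abbrev Gam : Type := Lex (Fin 4 → ℤ)

/-- the field of Laurent series (Hahn series) in four variables over `k` -/
abbrev LS (k : Type) [Field k] : Type := HahnSeries Gam k

/-- the standard basis of `ℤ^4` -/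
def eG (i : Fin 4) : Gam := toLex (Pi.single i 1)

/-- coordinates -/
def co (i : Fin 4) : Gam →+ ℤ where
  toFun x := ofLex x i
  map_zero' := rfl
  map_add' _ _ := rfl

theorem Gam_ext {x y : Gam} (h : ∀ i, co i x = co i y) : x = y :=
  ofLex.injective (funext h)

theorem co_eG (i j : Fin 4) : co i (eG j) = if i = j then 1 else 0 := by
  change (Pi.single j 1 : Fin 4 → ℤ) i = _
  rw [Pi.single_apply]

/-- the `i`-th variable -/
noncomputable def tvar (k : Type) [Field k] (i : Fin 4) : LS k := HahnSeries.single (eG i) 1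

theorem tvar_ne_zero (k : Type) [Field k] (i : Fin 4) : tvar k i ≠ 0 := by
  rw [tvar, Ne, HahnSeries.single_eq_zero_iff]
  exact one_ne_zero

variable {k : Type} [Field k]

theorem C_prim {n : ℕ} {ζ : k} (hζ : IsPrimitiveRoot ζ n) :
    IsPrimitiveRoot (HahnSeries.C ζ : LS k) n :=
  hζ.map_of_injective HahnSeries.C_injective

section generic

variable (m1 m2 s1 s2 : ℕ) (ξ η : k)

/-- coefficients of the multiplication table -/
noncomputable def coc [NeZero m1] [NeZero m2] (g h : (Fin m1 × Fin m1) × (Fin m2 × Fin m2)) :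
    LS k :=
  (((HahnSeries.C ξ : LS k) ^ ((h.1.1 : ℕ) * (g.1.2 : ℕ)))⁻¹ *
    ((HahnSeries.C η : LS k) ^ ((h.2.1 : ℕ) * (g.2.2 : ℕ)))⁻¹) *
  (tvar k 0 ^ (((g.1.1 : ℕ) + h.1.1) / m1) * tvar k 1 ^ (((g.1.2 : ℕ) + h.1.2) / m1) *
    (tvar k 2 ^ (((g.2.1 : ℕ) + h.2.1) / m2) * tvar k 3 ^ (((g.2.2 : ℕ) + h.2.2) / m2)))

variable {m1 m2 ξ η}

theorem coc_eq [NeZero m1] [NeZero m2] (g h : (Fin m1 × Fin m1) × (Fin m2 × Fin m2)) :
    coc m1 m2 ξ η g h = HahnSeries.single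
      ((((g.1.1 : ℕ) + h.1.1) / m1) • eG 0 + (((g.1.2 : ℕ) + h.1.2) / m1) • eG 1 +
        ((((g.2.1 : ℕ) + h.2.1) / m2) • eG 2 + (((g.2.2 : ℕ) + h.2.2) / m2) • eG 3))
      ((ξ ^ ((h.1.1 : ℕ) * (g.1.2 : ℕ)))⁻¹ * (η ^ ((h.2.1 : ℕ) * (g.2.2 : ℕ)))⁻¹) := by
  rw [coc, ← map_pow, ← map_pow, ← map_inv₀, ← map_inv₀, ← map_mul]
  simp only [tvar, HahnSeries.single_pow, one_pow, HahnSeries.single_mul_single, one_mul]
  rw [HahnSeries.C_apply, HahnSeries.single_mul_single, zero_add, mul_one]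

theorem coc_ne [NeZero m1] [NeZero m2] (hξ : ξ ≠ 0) (hη : η ≠ 0)
    (g h : (Fin m1 × Fin m1) × (Fin m2 × Fin m2)) : coc m1 m2 ξ η g h ≠ 0 := by
  rw [coc_eq, Ne, HahnSeries.single_eq_zero_iff]
  exact mul_ne_zero (inv_ne_zero (pow_ne_zero _ hξ)) (inv_ne_zero (pow_ne_zero _ hη))

theorem coc_order [NeZero m1] [NeZero m2] (hξ : ξ ≠ 0) (hη : η ≠ 0)
    (g h : (Fin m1 × Fin m1) × (Fin m2 × Fin m2)) :
    (coc m1 m2 ξ η g h).order =
      ((((g.1.1 : ℕ) + h.1.1) / m1) • eG 0 + (((g.1.2 : ℕ) + h.1.2) / m1) • eG 1 +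
        ((((g.2.1 : ℕ) + h.2.1) / m2) • eG 2 + (((g.2.2 : ℕ) + h.2.2) / m2) • eG 3)) := by
  rw [coc_eq, HahnSeries.order_single]
  exact mul_ne_zero (inv_ne_zero (pow_ne_zero _ hξ)) (inv_ne_zero (pow_ne_zero _ hη))

/-- values of the monomials (scaled by `m1 * m2`) -/
def val (m1 m2 : ℕ) (g : (Fin m1 × Fin m1) × (Fin m2 × Fin m2)) : Gam :=
  toLex ![(m2 : ℤ) * (g.1.1 : ℕ), (m2 : ℤ) * (g.1.2 : ℕ), (m1 : ℤ) * (g.2.1 : ℕ),
    (m1 : ℤ) * (g.2.2 : ℕ)]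

theorem co_val (m1 m2 : ℕ) (g : (Fin m1 × Fin m1) × (Fin m2 × Fin m2)) (i : Fin 4) :
    co i (val m1 m2 g) = ![(m2 : ℤ) * (g.1.1 : ℕ), (m2 : ℤ) * (g.1.2 : ℕ), (m1 : ℤ) * (g.2.1 : ℕ),
    (m1 : ℤ) * (g.2.2 : ℕ)] i := rfl

theorem val_add [NeZero m1] [NeZero m2] (hξ : ξ ≠ 0) (hη : η ≠ 0)
    (g h : (Fin m1 × Fin m1) × (Fin m2 × Fin m2)) :
    (m1 * m2) • (coc m1 m2 ξ η g h).order + val m1 m2 (g + h) = val m1 m2 g + val m1 m2 h := by
  rw [coc_order hξ hη]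
  apply Gam_ext
  intro i
  have e : ∀ (m a b : ℕ), (m : ℤ) * (((a : ℤ) + b) / m) + (((a : ℤ) + b) % m)
      = (a : ℤ) + b := fun m a b => Int.mul_ediv_add_emod _ _
  have e1 := e m1 g.1.1 h.1.1
  have e2 := e m1 g.1.2 h.1.2
  have e3 := e m2 g.2.1 h.2.1
  have e4 := e m2 g.2.2 h.2.2
  have v1 : ((g + h).1.1 : ℕ) = ((g.1.1 : ℕ) + h.1.1) % m1 := Fin.val_add _ _
  have v2 : ((g + h).1.2 : ℕ) = ((g.1.2 : ℕ) + h.1.2) % m1 := Fin.val_add _ _
  have v3 : ((g + h).2.1 : ℕ) = ((g.2.1 : ℕ) + h.2.1) % m2 := Fin.val_add _ _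
  have v4 : ((g + h).2.2 : ℕ) = ((g.2.2 : ℕ) + h.2.2) % m2 := Fin.val_add _ _
  simp only [map_add, map_nsmul, co_eG, co_val]
  rw [v1, v2, v3, v4]
  fin_cases i
  · simp
    linear_combination (m2 : ℤ) * e1
  · simp
    linear_combination (m2 : ℤ) * e2
  · simp
    linear_combination (m1 : ℤ) * e3
  · simp
    linear_combination (m1 : ℤ) * e4

theorem fin_eq_of_modEq {m : ℕ} (a b : Fin m) (x y : ℤ)
    (h : (m : ℤ) * x + (a : ℕ) = (m : ℤ) * y + (b : ℕ)) : a = b := by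
  have h1 : ((a : ℕ) : ℤ) % m = ((b : ℕ) : ℤ) % m := by
    have := congrArg (fun z : ℤ => z % m) h
    simpa [Int.add_mul_emod_self_left, add_comm] using this
  have h2 : ((a : ℕ) : ℤ) % m = (a : ℕ) := Int.emod_eq_of_lt (by positivity) (by exact_mod_cast a.2)
  have h3 : ((b : ℕ) : ℤ) % m = (b : ℕ) := Int.emod_eq_of_lt (by positivity) (by exact_mod_cast b.2)
  rw [h2, h3] at h1
  exact Fin.ext (by exact_mod_cast h1)

theorem val_dist (hm1 : 0 < m1) (hm2 : 0 < m2) (x y : Gam)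
    (g h : (Fin m1 × Fin m1) × (Fin m2 × Fin m2))
    (H : (m1 * m2) • x + val m1 m2 g = (m1 * m2) • y + val m1 m2 h) : g = h := by
  have H' : ∀ i, (m1 * m2) • co i x + co i (val m1 m2 g) = (m1 * m2) • co i y + co i (val m1 m2 h) := by
    intro i
    rw [← map_nsmul, ← map_add, H, map_add, map_nsmul]
  have H0 := H' 0
  have H1 := H' 1
  have H2 := H' 2
  have H3 := H' 3
  simp only [co_val] at H0 H1 H2 H3
  simp at H0 H1 H2 H3
  have p1 : (m1 : ℤ) ≠ 0 := by exact_mod_cast hm1.ne'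
  have p2 : (m2 : ℤ) ≠ 0 := by exact_mod_cast hm2.ne'
  have E0 : g.1.1 = h.1.1 := fin_eq_of_modEq _ _ (co 0 x) (co 0 y)
    (mul_left_cancel₀ p2 (by linear_combination H0))
  have E1 : g.1.2 = h.1.2 := fin_eq_of_modEq _ _ (co 1 x) (co 1 y)
    (mul_left_cancel₀ p2 (by linear_combination H1))
  have E2 : g.2.1 = h.2.1 := fin_eq_of_modEq _ _ (co 2 x) (co 2 y)
    (mul_left_cancel₀ p1 (by linear_combination H2))
  have E3 : g.2.2 = h.2.2 := fin_eq_of_modEq _ _ (co 3 x) (co 3 y)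
    (mul_left_cancel₀ p1 (by linear_combination H3))
  exact Prod.ext (Prod.ext E0 E1) (Prod.ext E2 E3)

/-- the generic product of a symbol algebra of degree `m1` and one of degree `m2` has no zero
divisors -/
theorem generic_mul_ne_zero (hm1 : 0 < m1) (hm2 : 0 < m2) (hξ : IsPrimitiveRoot ξ m1)
    (hη : IsPrimitiveRoot η m2)
    (x y : Symb m1 (HahnSeries.C ξ : LS k) (tvar k 0) (tvar k 1) ⊗[LS k]
      Symb m2 (HahnSeries.C η : LS k) (tvar k 2) (tvar k 3)) (hx : x ≠ 0) (hy : y ≠ 0) :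
    x * y ≠ 0 := by
  have : NeZero m1 := ⟨hm1.ne'⟩
  have : NeZero m2 := ⟨hm2.ne'⟩
  have hξ0 : ξ ≠ 0 := hξ.ne_zero hm1.ne'
  have hη0 : η ≠ 0 := hη.ne_zero hm2.ne'
  have hCξ : (HahnSeries.C ξ : LS k) ≠ 0 := (C_prim hξ).ne_zero hm1.ne'
  have hCη : (HahnSeries.C η : LS k) ≠ 0 := (C_prim hη).ne_zero hm2.ne'
  refine lead_mul_ne_zero (HahnSeries.addVal Gam k) HahnSeries.order
    (fun x hx => HahnSeries.addVal_apply_of_ne hx)
    (stdBasis hm1 hm2 (C_prim hξ) (C_prim hη) (tvar_ne_zero k 0) (tvar_ne_zero k 1)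
      (tvar_ne_zero k 2) (tvar_ne_zero k 3))
    (coc m1 m2 ξ η) (coc_ne hξ0 hη0) ?_ (m1 * m2) (val m1 m2) (val_add hξ0 hη0)
    (val_dist hm1 hm2) x y hx hy
  intro g h
  rw [stdBasis_apply, stdBasis_apply, stdBasis_apply, Quad.mon_mul_mon _ hCξ hCη, Quad.mon_mod,
    smul_smul, coc]
  have v1 : ((g + h).1.1 : ℕ) = ((g.1.1 : ℕ) + h.1.1) % m1 := Fin.val_add _ _
  have v2 : ((g + h).1.2 : ℕ) = ((g.1.2 : ℕ) + h.1.2) % m1 := Fin.val_add _ _
  have v3 : ((g + h).2.1 : ℕ) = ((g.2.1 : ℕ) + h.2.1) % m2 := Fin.val_add _ _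
  have v4 : ((g + h).2.2 : ℕ) = ((g.2.2 : ℕ) + h.2.2) % m2 := Fin.val_add _ _
  rw [v1, v2, v3, v4]

end generic

end Pool.Y109S
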