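import Pool.Agent.Y109S.Quad

/-!
# Non-triviality, dimension and monomial basis of symbol algebras and of products of two of them
-/

set_option autoImplicit false

open scoped TensorProduct

namespace Pool.Y109S

section rep

variable {F : Type} [Field F]

/-- shift operator times a scalar -/
noncomputable def shiftOp (E : Type) [Field E] (n : ℕ) (β : E) : Module.End E (ZMod n → E) where
  toFun f := fun i => β * f (i - 1)
  map_add' f g := by ext i; simp [mul_add]
  map_smul' r f := by ext i; simp [mul_left_comm]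

theorem shiftOp_pow (E : Type) [Field E] (n : ℕ) (β : E) (m : ℕ) (f : ZMod n → E) (i : ZMod n) :
    (shiftOp E n β ^ m) f i = β ^ m * f (i - m) := by
  induction m generalizing f i with
  | zero => simp
  | succ m ih =>
    rw [pow_succ, Module.End.mul_apply, ih]
    change β ^ m * (β * f (i - m - 1)) = _
    rw [pow_succ, mul_assoc]
    congr 3
    push_cast
    ring

/-- diagonal operator -/
noncomputable def diagOp (E : Type) [Field E] (n : ℕ) (χ : ZMod n → E) :
    Module.End E (ZMod n → E) where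
  toFun f := fun i => χ i * f i
  map_add' f g := by ext i; simp [mul_add]
  map_smul' r f := by ext i; simp [mul_left_comm]

theorem diagOp_pow (E : Type) [Field E] (n : ℕ) (χ : ZMod n → E) (m : ℕ) (f : ZMod n → E)
    (i : ZMod n) : (diagOp E n χ ^ m) f i = χ i ^ m * f i := by
  induction m generalizing f i with
  | zero => simp
  | succ m ih =>
    rw [pow_succ, Module.End.mul_apply, ih]
    change χ i ^ m * (χ i * f i) = _
    rw [pow_succ, mul_assoc]

theorem Symb.nontrivial {n : ℕ} (hn : 0 < n) {ξ : F} (hξ : ξ ^ n = 1) (a b : F) :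
    Nontrivial (Symb n ξ a b) := by
  have : NeZero n := ⟨hn.ne'⟩
  let E := AlgebraicClosure F
  obtain ⟨α, hα⟩ := IsAlgClosed.exists_pow_nat_eq (algebraMap F E a) hn
  obtain ⟨β, hβ⟩ := IsAlgClosed.exists_pow_nat_eq (algebraMap F E b) hn
  let ζ : E := algebraMap F E ξ
  have hζ : ζ ^ n = 1 := by rw [← map_pow, hξ, map_one]
  let χ : ZMod n → E := fun i => α * ζ ^ i.val
  have hχ : ∀ i : ZMod n, χ i = ζ * χ (i - 1) := by
    intro i
    change α * ζ ^ i.val = ζ * (α * ζ ^ (i - 1).val)
    have h1 : ζ ^ i.val = ζ ^ ((i - 1).val + 1) := by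
      apply pow_eq_pow_of_modEq _ hζ
      rw [← ZMod.natCast_eq_natCast_iff]
      push_cast
      rw [ZMod.natCast_zmod_val, ZMod.natCast_zmod_val]
      ring
    rw [h1, pow_succ]
    ring
  let U : Module.End E (ZMod n → E) := diagOp E n χ
  let V : Module.End E (ZMod n → E) := shiftOp E n β
  let f : Symb n ξ a b →ₐ[F] Module.End E (ZMod n → E) := Symb.lift U V
    (by
      refine LinearMap.ext fun g => funext fun i => ?_
      change (diagOp E n χ ^ n) g i = _
      rw [diagOp_pow]
      have : χ i ^ n = algebraMap F E a := by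
        change (α * ζ ^ i.val) ^ n = _
        rw [mul_pow, hα, ← pow_mul, mul_comm i.val n, pow_mul, hζ, one_pow, mul_one]
      rw [this, Module.algebraMap_end_apply, Pi.smul_apply, Algebra.smul_def])
    (by
      refine LinearMap.ext fun g => funext fun i => ?_
      change (shiftOp E n β ^ n) g i = _
      rw [shiftOp_pow, hβ, Module.algebraMap_end_apply, Pi.smul_apply, Algebra.smul_def]
      simp)
    (by
      refine LinearMap.ext fun g => funext fun i => ?_
      change χ i * (β * g (i - 1)) = ξ • (β * (χ (i - 1) * g (i - 1)))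
      rw [hχ i, Algebra.smul_def]
      change ζ * χ (i - 1) * (β * g (i - 1)) = ζ * (β * (χ (i - 1) * g (i - 1)))
      ring)
  have : Nontrivial (Module.End E (ZMod n → E)) := inferInstance
  exact f.toRingHom.domain_nontrivial

theorem Symb.finrank_le {n : ℕ} (hn : 0 < n) {ξ : F} (hξ : ξ ≠ 0) (a b : F) :
    Module.Finite F (Symb n ξ a b) ∧ Module.finrank F (Symb n ξ a b) ≤ n ^ 2 := by
  have h := Symb.span_mon (a := a) (b := b) hn hξ
  constructor
  · exact ⟨⟨(Set.finite_range _).toFinset, by
      rw [Set.Finite.coe_toFinset]; exact h⟩⟩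
  · have h2 := finrank_range_le_card (R := F)
      (fun p : Fin n × Fin n => Symb.mon n ξ a b (p.1, p.2))
    rw [Set.finrank, h, finrank_top] at h2
    simpa [pow_two] using h2

end rep

section prod

variable {F : Type} [Field F] (n q : ℕ) (ξ η a b c d : F)

/-- the standard generators of `(a,b)_n ⊗ (c,d)_q` -/
noncomputable def stdQuad :
    Quad F (Symb n ξ a b ⊗[F] Symb q η c d) n q ξ η a b c d where
  U := Symb.u n ξ a b ⊗ₜ 1
  V := Symb.v n ξ a b ⊗ₜ 1
  W := 1 ⊗ₜ Symb.u q η c d
  Z := 1 ⊗ₜ Symb.v q η c d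
  hU := by rw [Algebra.TensorProduct.tmul_pow, Symb.u_pow, one_pow]; rfl
  hV := by rw [Algebra.TensorProduct.tmul_pow, Symb.v_pow, one_pow]; rfl
  hUV := by
    rw [Algebra.TensorProduct.tmul_mul_tmul, Algebra.TensorProduct.tmul_mul_tmul, Symb.uv,
      TensorProduct.smul_tmul']
  hW := by
    rw [Algebra.TensorProduct.tmul_pow, Symb.u_pow, one_pow,
      Algebra.TensorProduct.algebraMap_apply, Algebra.algebraMap_eq_smul_one,
      Algebra.algebraMap_eq_smul_one, TensorProduct.tmul_smul, TensorProduct.smul_tmul']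
  hZ := by
    rw [Algebra.TensorProduct.tmul_pow, Symb.v_pow, one_pow,
      Algebra.TensorProduct.algebraMap_apply, Algebra.algebraMap_eq_smul_one,
      Algebra.algebraMap_eq_smul_one, TensorProduct.tmul_smul, TensorProduct.smul_tmul']
  hWZ := by
    rw [Algebra.TensorProduct.tmul_mul_tmul, Algebra.TensorProduct.tmul_mul_tmul, Symb.uv,
      TensorProduct.tmul_smul]
  UW := by simp [Commute, SemiconjBy]
  UZ := by simp [Commute, SemiconjBy]
  VW := by simp [Commute, SemiconjBy]
  VZ := by simp [Commute, SemiconjBy]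

theorem stdQuad_mon (i j k l : ℕ) : (stdQuad n q ξ η a b c d).mon i j k l =
    Symb.mon n ξ a b (i, j) ⊗ₜ Symb.mon q η c d (k, l) := by
  simp only [Quad.mon, stdQuad, Symb.mon, Algebra.TensorProduct.tmul_pow,
    Algebra.TensorProduct.tmul_mul_tmul, one_pow, one_mul, mul_one]

variable {n q ξ η a b c d}

theorem stdQuad_span (hn : 0 < n) (hq : 0 < q) (hξ : ξ ≠ 0) (hη : η ≠ 0) :
    Submodule.span F (Set.range (fun g : (Fin n × Fin n) × (Fin q × Fin q) =>
      (stdQuad n q ξ η a b c d).mon g.1.1 g.1.2 g.2.1 g.2.2)) = ⊤ := by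
  have h1 := Symb.span_mon (a := a) (b := b) hn hξ
  have h2 := Symb.span_mon (a := c) (b := d) hq hη
  rw [eq_top_iff]
  intro x hx0
  clear hx0
  set S := Submodule.span F (Set.range (fun g : (Fin n × Fin n) × (Fin q × Fin q) =>
      (stdQuad n q ξ η a b c d).mon g.1.1 g.1.2 g.2.1 g.2.2)) with hS
  induction x using TensorProduct.induction_on with
  | zero => exact S.zero_mem
  | add x y hx hy => exact S.add_mem hx hy
  | tmul x y =>
    have hx : x ∈ Submodule.span F (Set.range (fun p : Fin n × Fin n =>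
        Symb.mon n ξ a b (p.1, p.2))) := by rw [h1]; trivial
    have hy : y ∈ Submodule.span F (Set.range (fun p : Fin q × Fin q =>
        Symb.mon q η c d (p.1, p.2))) := by rw [h2]; trivial
    induction hx using Submodule.span_induction with
    | zero => rw [TensorProduct.zero_tmul]; exact S.zero_mem
    | add x x' _ _ hx hx' => rw [TensorProduct.add_tmul]; exact S.add_mem hx hx'
    | smul r x _ hx => rw [← TensorProduct.smul_tmul']; exact S.smul_mem _ hx
    | mem x hx =>
      obtain ⟨⟨i, j⟩, rfl⟩ := hx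
      induction hy using Submodule.span_induction with
      | zero => rw [TensorProduct.tmul_zero]; exact S.zero_mem
      | add x x' _ _ hx hx' => rw [TensorProduct.tmul_add]; exact S.add_mem hx hx'
      | smul r x _ hx => rw [TensorProduct.tmul_smul]; exact S.smul_mem _ hx
      | mem x hx =>
        obtain ⟨⟨k, l⟩, rfl⟩ := hx
        refine Submodule.subset_span ⟨((i, j), (k, l)), ?_⟩
        exact stdQuad_mon n q ξ η a b c d i j k l

/-- the monomial basis of `(a,b)_n ⊗ (c,d)_q` -/
noncomputable def stdBasis (hn : 0 < n) (hq : 0 < q)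
    (hξ : IsPrimitiveRoot ξ n) (hη : IsPrimitiveRoot η q)
    (ha : a ≠ 0) (hb : b ≠ 0) (hc : c ≠ 0) (hd : d ≠ 0) :
    Module.Basis ((Fin n × Fin n) × (Fin q × Fin q)) F (Symb n ξ a b ⊗[F] Symb q η c d) :=
  have := Symb.nontrivial hn hξ.pow_eq_one a b
  have := Symb.nontrivial hq hη.pow_eq_one c d
  Module.Basis.mk ((stdQuad n q ξ η a b c d).linearIndependent hn hq hξ hη ha hb hc hd)
    (stdQuad_span hn hq (hξ.ne_zero hn.ne') (hη.ne_zero hq.ne')).ge

theorem stdBasis_apply (hn : 0 < n) (hq : 0 < q)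
    (hξ : IsPrimitiveRoot ξ n) (hη : IsPrimitiveRoot η q)
    (ha : a ≠ 0) (hb : b ≠ 0) (hc : c ≠ 0) (hd : d ≠ 0) (g) :
    stdBasis (a := a) (b := b) (c := c) (d := d) hn hq hξ hη ha hb hc hd g =
      (stdQuad n q ξ η a b c d).mon g.1.1 g.1.2 g.2.1 g.2.2 := by
  rw [stdBasis, Module.Basis.mk_apply]

theorem finrank_std (hn : 0 < n) (hq : 0 < q)
    (hξ : IsPrimitiveRoot ξ n) (hη : IsPrimitiveRoot η q)
    (ha : a ≠ 0) (hb : b ≠ 0) (hc : c ≠ 0) (hd : d ≠ 0) :
    Module.finrank F (Symb n ξ a b ⊗[F] Symb q η c d) = (n * q) ^ 2 := by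
  rw [Module.finrank_eq_card_basis
    (stdBasis (a := a) (b := b) (c := c) (d := d) hn hq hξ hη ha hb hc hd)]
  simp only [Fintype.card_prod, Fintype.card_fin]
  ring

end prod

end Pool.Y109S
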