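import Pool.Agent.Y109S.Symb

/-!
# No zero divisors by leading terms; lower bound for the size of a module over `Mat_r(D)`
-/

set_option autoImplicit false

open scoped TensorProduct

namespace Pool.Y109S

/-- Leading term argument: an algebra with a basis `m` of monomials `m g * m h = c g h • m (g+h)`
and a compatible valuation with distinct classes has no zero divisors. -/
theorem lead_mul_ne_zero {F R G Γ : Type} [Field F] [Ring R] [Algebra F R]
    [AddCommGroup G] [Fintype G] [DecidableEq G]
    [AddCommGroup Γ] [LinearOrder Γ] [IsOrderedAddMonoid Γ]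
    (v : AddValuation F (WithTop Γ)) (ord : F → Γ) (hord : ∀ x, x ≠ 0 → v x = ord x)
    (m : Module.Basis G F R) (c : G → G → F) (hc : ∀ g h, c g h ≠ 0)
    (hmul : ∀ g h, m g * m h = c g h • m (g + h))
    (N : ℕ) (γ : G → Γ)
    (hγ : ∀ g h, N • ord (c g h) + γ (g + h) = γ g + γ h)
    (hdist : ∀ (x y : Γ) (g h : G), N • x + γ g = N • y + γ h → g = h)
    (x y : R) (hx : x ≠ 0) (hy : y ≠ 0) : x * y ≠ 0 := by
  classical
  intro hxy
  set X : G → F := fun g => m.repr x g with hX
  set Y : G → F := fun g => m.repr y g with hY
  have ordmul : ∀ a b : F, a ≠ 0 → b ≠ 0 → ord (a * b) = ord a + ord b := by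
    intro a b ha hb
    have h1 := v.map_mul a b
    rw [hord _ (mul_ne_zero ha hb), hord a ha, hord b hb, ← WithTop.coe_add] at h1
    exact WithTop.coe_injective h1
  -- the coefficient formula
  have hcoef : ∀ k : G, m.repr (x * y) k = ∑ g, X g * Y (k - g) * c g (k - g) := by
    intro k
    have e1 : x * y = ∑ g, ∑ h, (X g * Y h * c g h) • m (g + h) := by
      conv_lhs => rw [← m.sum_repr x, ← m.sum_repr y]
      rw [Finset.sum_mul_sum]
      refine Finset.sum_congr rfl fun g _ => Finset.sum_congr rfl fun h _ => ?_
      rw [smul_mul_smul_comm, hmul, smul_smul]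
    rw [e1, map_sum, Finsupp.finsetSum_apply]
    refine Finset.sum_congr rfl fun g _ => ?_
    rw [map_sum, Finsupp.finsetSum_apply, Finset.sum_eq_single (k - g)]
    · rw [map_smul, m.repr_self]
      simp
    · intro h _ hne
      rw [map_smul, m.repr_self, Finsupp.smul_apply, Finsupp.single_apply, if_neg]
      · simp
      · intro h2
        exact hne (by rw [← h2]; abel)
    · intro h; exact absurd (Finset.mem_univ _) h
  -- minimal terms
  have hexist : ∀ z : R, z ≠ 0 → ∃ g0, m.repr z g0 ≠ 0 ∧
      ∀ g, m.repr z g ≠ 0 → N • ord (m.repr z g0) + γ g0 ≤ N • ord (m.repr z g) + γ g := by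
    intro z hz
    have hne : (Finset.univ.filter (fun g => m.repr z g ≠ 0)).Nonempty := by
      by_contra hcon
      rw [Finset.not_nonempty_iff_eq_empty, Finset.filter_eq_empty_iff] at hcon
      apply hz
      apply m.repr.injective
      ext g
      have := hcon (Finset.mem_univ g)
      simpa using this
    obtain ⟨g0, hg0, hmin⟩ := Finset.exists_min_image _
      (fun g => N • ord (m.repr z g) + γ g) hne
    refine ⟨g0, (Finset.mem_filter.1 hg0).2, fun g hg => hmin g ?_⟩
    exact Finset.mem_filter.2 ⟨Finset.mem_univ _, hg⟩
  obtain ⟨g0, hg0, hgmin⟩ := hexist x hx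
  obtain ⟨h0, hh0, hhmin⟩ := hexist y hy
  set k0 := g0 + h0 with hk0
  have h1 := hcoef k0
  rw [hxy, map_zero, Finsupp.zero_apply, ← Finset.add_sum_erase _ _ (Finset.mem_univ g0)] at h1
  have hk : k0 - g0 = h0 := by rw [hk0]; abel
  rw [hk] at h1
  have hT : X g0 * Y h0 * c g0 h0 ≠ 0 := mul_ne_zero (mul_ne_zero hg0 hh0) (hc _ _)
  have hval : v (X g0 * Y h0 * c g0 h0) = ((ord (X g0 * Y h0 * c g0 h0) : Γ) : WithTop Γ) :=
    hord _ hT
  have hlt : v (X g0 * Y h0 * c g0 h0) <
      v (∑ g ∈ Finset.univ.erase g0, X g * Y (k0 - g) * c g (k0 - g)) := by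
    refine v.map_lt_sum ?_ ?_
    · rw [hval]; exact WithTop.coe_ne_top
    · intro g hg
      rw [Finset.mem_erase] at hg
      by_cases hXg : X g = 0
      · rw [hXg, zero_mul, zero_mul, v.map_zero, hval]; exact WithTop.coe_lt_top _
      by_cases hYg : Y (k0 - g) = 0
      · rw [hYg, mul_zero, zero_mul, v.map_zero, hval]; exact WithTop.coe_lt_top _
      have hT2 : X g * Y (k0 - g) * c g (k0 - g) ≠ 0 :=
        mul_ne_zero (mul_ne_zero hXg hYg) (hc _ _)
      rw [hval, hord _ hT2, WithTop.coe_lt_coe]
      apply lt_of_nsmul_lt_nsmul_right N
      rw [ordmul _ _ (mul_ne_zero hXg hYg) (hc _ _), ordmul _ _ hXg hYg,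
        ordmul _ _ (mul_ne_zero hg0 hh0) (hc _ _), ordmul _ _ hg0 hh0]
      have e1 := hγ g0 h0
      have e2 := hγ g (k0 - g)
      have e3 : g + (k0 - g) = k0 := by abel
      rw [e3] at e2
      rw [← hk0] at e1
      have l1 : N • ord (X g0) + γ g0 < N • ord (X g) + γ g := by
        refine lt_of_le_of_ne (hgmin g hXg) ?_
        intro h
        exact hg.1 (hdist _ _ _ _ h).symm
      have l2 := hhmin (k0 - g) hYg
      have l3 := add_lt_add_of_lt_of_le l1 l2
      simp only [nsmul_add]
      have e4 : N • ord (X g0) + N • ord (Y h0) + N • ord (c g0 h0) =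
          (N • ord (X g0) + γ g0 + (N • ord (Y h0) + γ h0)) - γ k0 := by
        rw [eq_sub_iff_add_eq]
        rw [add_assoc (N • ord (X g0) + N • ord (Y h0)), e1]
        abel
      have e5 : N • ord (X g) + N • ord (Y (k0 - g)) + N • ord (c g (k0 - g)) =
          (N • ord (X g) + γ g + (N • ord (Y (k0 - g)) + γ (k0 - g))) - γ k0 := by
        rw [eq_sub_iff_add_eq]
        rw [add_assoc (N • ord (X g) + N • ord (Y (k0 - g))), e2]
        abel
      rw [e4, e5]
      exact sub_lt_sub_right l3 _
  have h2 : X g0 * Y h0 * c g0 h0 =
      -(∑ g ∈ Finset.univ.erase g0, X g * Y (k0 - g) * c g (k0 - g)) :=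
    eq_neg_of_add_eq_zero_left h1.symm
  rw [h2, v.map_neg] at hlt
  exact lt_irrefl _ hlt

/-- the dimension of a module over `Mat_r(D)`, `D` a division algebra, is divisible by
`r * dim D`. -/
theorem dvd_finrank_of_matrix_action {F D M : Type} [Field F] [DivisionRing D] [Algebra F D]
    (r : ℕ) (hr : 0 < r) [AddCommGroup M] [Module F M]
    (Φ : Matrix (Fin r) (Fin r) D →ₐ[F] Module.End F M) :
    r * Module.finrank F D ∣ Module.finrank F M := by
  classical
  let j0 : Fin r := ⟨0, hr⟩
  let V : Submodule F M := LinearMap.range (Φ (Matrix.single j0 j0 1))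
  have hV : ∀ (l : Fin r) (d : D) (x : M), Φ (Matrix.single j0 l d) x ∈ V := by
    intro l d x
    refine ⟨Φ (Matrix.single j0 l d) x, ?_⟩
    rw [← Module.End.mul_apply, ← map_mul, Matrix.single_mul_single_same, one_mul]
  have hVid : ∀ x ∈ V, Φ (Matrix.single j0 j0 1) x = x := by
    rintro x ⟨y, rfl⟩
    rw [← Module.End.mul_apply, ← map_mul, Matrix.single_mul_single_same, one_mul]
  let modV : Module D V :=
    { smul := fun d x => ⟨Φ (Matrix.single j0 j0 d) x, hV _ _ _⟩
      one_smul := fun x => Subtype.ext (hVid x x.2)
      mul_smul := fun d d' x => Subtype.ext (by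
        change Φ (Matrix.single j0 j0 (d * d')) (x : M) =
          Φ (Matrix.single j0 j0 d) (Φ (Matrix.single j0 j0 d') (x : M))
        rw [← Module.End.mul_apply, ← map_mul, Matrix.single_mul_single_same])
      smul_zero := fun d => Subtype.ext (by
        change Φ (Matrix.single j0 j0 d) ((0 : V) : M) = 0
        rw [Submodule.coe_zero, map_zero])
      smul_add := fun d x y => Subtype.ext (by
        change Φ (Matrix.single j0 j0 d) ((x + y : V) : M) =
          Φ (Matrix.single j0 j0 d) (x : M) + Φ (Matrix.single j0 j0 d) (y : M)
        rw [Submodule.coe_add, map_add])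
      add_smul := fun d d' x => Subtype.ext (by
        change Φ (Matrix.single j0 j0 (d + d')) (x : M) =
          Φ (Matrix.single j0 j0 d) (x : M) + Φ (Matrix.single j0 j0 d') (x : M)
        rw [Matrix.single_add, map_add, LinearMap.add_apply])
      zero_smul := fun x => Subtype.ext (by
        change Φ (Matrix.single j0 j0 (0 : D)) (x : M) = 0
        rw [Matrix.single_zero, map_zero, LinearMap.zero_apply]) }
  have smV : ∀ (d : D) (x : V), ((d • x : V) : M) = Φ (Matrix.single j0 j0 d) (x : M) :=
    fun _ _ => rfl
  have towV : IsScalarTower F D V := ⟨fun f d x => Subtype.ext (by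
    rw [smV, Submodule.coe_smul, smV, ← Matrix.smul_single, map_smul, LinearMap.smul_apply])⟩
  have h1 : Module.finrank F D * Module.finrank D V = Module.finrank F V :=
    Module.finrank_mul_finrank F D V
  let e : M ≃ₗ[F] (Fin r → V) :=
    { toFun := fun x l => ⟨Φ (Matrix.single j0 l 1) x, hV _ _ _⟩
      map_add' := fun x y => funext fun l => Subtype.ext (map_add _ _ _)
      map_smul' := fun f x => funext fun l => Subtype.ext (map_smul _ _ _)
      invFun := fun y => ∑ l, Φ (Matrix.single l j0 1) (y l : M)
      left_inv := by
        intro x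
        change ∑ l, Φ (Matrix.single l j0 1) (Φ (Matrix.single j0 l 1) x) = x
        have h2 : ∀ l, Φ (Matrix.single l j0 1) (Φ (Matrix.single j0 l 1) x) =
            Φ (Matrix.single l l 1) x := by
          intro l
          rw [← Module.End.mul_apply, ← map_mul, Matrix.single_mul_single_same, one_mul]
        rw [Finset.sum_congr rfl fun l _ => h2 l, ← LinearMap.sum_apply, ← map_sum]
        have h3 : (∑ l : Fin r, Matrix.single l l (1 : D)) = 1 := by
          ext i l
          rw [Matrix.sum_apply]
          by_cases h : i = l
          · subst h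
            rw [Matrix.one_apply_eq, Finset.sum_eq_single i]
            · simp
            · intro b _ hb; simp [hb]
            · intro h; exact absurd (Finset.mem_univ _) h
          · rw [Matrix.one_apply_ne h, Finset.sum_eq_zero]
            intro b _
            rw [Matrix.single_apply, if_neg]
            rintro ⟨rfl, rfl⟩; exact h rfl
        rw [h3, map_one]; rfl
      right_inv := by
        intro y
        funext l
        apply Subtype.ext
        change Φ (Matrix.single j0 l 1) (∑ l', Φ (Matrix.single l' j0 1) (y l' : M)) = (y l : M)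
        rw [map_sum, Finset.sum_eq_single l]
        · rw [← Module.End.mul_apply, ← map_mul, Matrix.single_mul_single_same, one_mul]
          exact hVid _ (y l).2
        · intro l' _ hne
          rw [← Module.End.mul_apply, ← map_mul, Matrix.single_mul_single_of_ne _ _ _ _ hne.symm,
            map_zero, LinearMap.zero_apply]
        · intro h; exact absurd (Finset.mem_univ _) h }
  have h2 := e.finrank_eq
  rw [h2]
  have h3 : Module.finrank F (Fin r → V) = r * Module.finrank F V := by
    by_cases hfin : Module.Finite F V
    · rw [Module.finrank_pi_fintype]; simp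
    · have hV0 : Module.finrank F V = 0 := Module.finrank_of_not_finite hfin
      rw [hV0, mul_zero]
      apply Module.finrank_of_not_finite
      intro hcon
      apply hfin
      exact Module.Finite.of_surjective (LinearMap.proj (R := F) (φ := fun _ : Fin r => V) j0)
        (LinearMap.proj_surjective j0)
  rw [h3, ← h1, ← mul_assoc]
  exact Dvd.intro _ rfl

/-- If `A'` and `B'` have dimension `n ^ 2` and contain a common subfield `K` of degree `n`,
and `A' ⊗ B' ≃ Mat_r(D)` with `D` a division algebra, then `r * dim D ∣ n ^ 3`. -/
theorem dvd_of_common_subfield {F A B K D : Type} [Field F] [Ring A] [Ring B] [Algebra F A]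
    [Algebra F B] [Field K] [Algebra F K] (n : ℕ) (hn : 0 < n) [Nontrivial A] [Nontrivial B]
    [Module.Finite F A] [Module.Finite F B]
    (hA : Module.finrank F A = n ^ 2) (hB : Module.finrank F B = n ^ 2)
    (hK : Module.finrank F K = n) (φ : K →ₐ[F] A) (ψ : K →ₐ[F] B)
    [DivisionRing D] [Algebra F D] (r : ℕ) (hr : 0 < r)
    (e : Matrix (Fin r) (Fin r) D ≃ₐ[F] (A ⊗[F] B)) :
    r * Module.finrank F D ∣ n ^ 3 := by
  classical
  -- right multiplication module structures
  let modA : Module K A :=
    { smul := fun k x => x * φ k
      one_smul := fun x => by change x * φ 1 = x; rw [map_one, mul_one]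
      mul_smul := fun k l x => by
        change x * φ (k * l) = (x * φ l) * φ k
        rw [mul_comm k l, map_mul, mul_assoc]
      smul_zero := fun k => by change 0 * φ k = 0; rw [zero_mul]
      smul_add := fun k x y => by change (x + y) * φ k = x * φ k + y * φ k; rw [add_mul]
      add_smul := fun k l x => by change x * φ (k + l) = x * φ k + x * φ l; rw [map_add, mul_add]
      zero_smul := fun x => by change x * φ 0 = 0; rw [map_zero, mul_zero] }
  let modB : Module K B :=
    { smul := fun k x => x * ψ k
      one_smul := fun x => by change x * ψ 1 = x; rw [map_one, mul_one]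
      mul_smul := fun k l x => by
        change x * ψ (k * l) = (x * ψ l) * ψ k
        rw [mul_comm k l, map_mul, mul_assoc]
      smul_zero := fun k => by change 0 * ψ k = 0; rw [zero_mul]
      smul_add := fun k x y => by change (x + y) * ψ k = x * ψ k + y * ψ k; rw [add_mul]
      add_smul := fun k l x => by change x * ψ (k + l) = x * ψ k + x * ψ l; rw [map_add, mul_add]
      zero_smul := fun x => by change x * ψ 0 = 0; rw [map_zero, mul_zero] }
  have smA : ∀ (k : K) (x : A), k • x = x * φ k := fun _ _ => rfl
  have smB : ∀ (k : K) (x : B), k • x = x * ψ k := fun _ _ => rfl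
  have : Module.Finite F K := Module.finite_of_finrank_pos (by rw [hK]; exact hn)
  have towA : IsScalarTower F K A := ⟨fun f k x => by
    rw [smA, smA, map_smul, mul_smul_comm]⟩
  have towB : IsScalarTower F K B := ⟨fun f k x => by
    rw [smB, smB, map_smul, mul_smul_comm]⟩
  have : SMulCommClass F K A := ⟨fun f k x => by
    rw [smA, smA, smul_mul_assoc]⟩
  have : SMulCommClass F K B := ⟨fun f k x => by
    rw [smB, smB, smul_mul_assoc]⟩
  have : SMulCommClass K F A := SMulCommClass.symm _ _ _
  have : SMulCommClass K F B := SMulCommClass.symm _ _ _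
  have : Module.Finite K A := Module.Finite.of_restrictScalars_finite F K A
  have : Module.Finite K B := Module.Finite.of_restrictScalars_finite F K B
  have dA : Module.finrank K A = n := by
    have h := Module.finrank_mul_finrank F K A
    rw [hK, hA, pow_two] at h
    exact Nat.eq_of_mul_eq_mul_left hn h
  have dB : Module.finrank K B = n := by
    have h := Module.finrank_mul_finrank F K B
    rw [hK, hB, pow_two] at h
    exact Nat.eq_of_mul_eq_mul_left hn h
  -- the module
  let M := A ⊗[K] B
  have : Nontrivial M := inferInstanceAs (Nontrivial (A ⊗[K] B))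
  have : IsScalarTower F K M := inferInstanceAs (IsScalarTower F K (A ⊗[K] B))
  have : Module.Finite K M := inferInstanceAs (Module.Finite K (A ⊗[K] B))
  have : Module.Finite F M := Module.Finite.trans K M
  have dM : Module.finrank F M = n ^ 3 := by
    rw [← Module.finrank_mul_finrank F K M, hK]
    have : Module.finrank K M = Module.finrank K A * Module.finrank K B :=
      Module.finrank_tensorProduct
    rw [this, dA, dB]
    ring
  -- actions
  let LA : A → (A →ₗ[K] A) := fun a =>
    { toFun := fun x => a * x
      map_add' := fun x y => mul_add a x y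
      map_smul' := fun k x => by
        rw [RingHom.id_apply, smA, smA, mul_assoc] }
  let LB : B → (B →ₗ[K] B) := fun b =>
    { toFun := fun x => b * x
      map_add' := fun x y => mul_add b x y
      map_smul' := fun k x => by
        rw [RingHom.id_apply, smB, smB, mul_assoc] }
  let actA : A →ₐ[F] Module.End F M :=
    AlgHom.ofLinearMap
      { toFun := fun a => ((TensorProduct.map (LA a) (LinearMap.id : B →ₗ[K] B)).restrictScalars F)
        map_add' := fun a a' => by
          ext z
          induction z using TensorProduct.induction_on with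
          | zero => simp
          | tmul x y =>
            change ((a + a') * x) ⊗ₜ[K] y = (a * x) ⊗ₜ[K] y + (a' * x) ⊗ₜ[K] y
            rw [add_mul, TensorProduct.add_tmul]
          | add x y hx hy => rw [map_add, hx, hy, map_add]
        map_smul' := fun f a => by
          ext z
          induction z using TensorProduct.induction_on with
          | zero => simp
          | tmul x y =>
            change ((f • a) * x) ⊗ₜ[K] y = f • ((a * x) ⊗ₜ[K] y)
            rw [TensorProduct.smul_tmul', smul_mul_assoc]
          | add x y hx hy => rw [map_add, hx, hy, map_add] }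
      (by
        ext z
        induction z using TensorProduct.induction_on with
        | zero => simp
        | tmul x y =>
          change (1 * x) ⊗ₜ[K] y = x ⊗ₜ[K] y
          rw [one_mul]
        | add x y hx hy => rw [map_add, hx, hy, map_add])
      (by
        intro a a'
        ext z
        induction z using TensorProduct.induction_on with
        | zero => simp
        | tmul x y =>
          change ((a * a') * x) ⊗ₜ[K] y = (a * (a' * x)) ⊗ₜ[K] y
          rw [mul_assoc]
        | add x y hx hy => rw [map_add, hx, hy, map_add])
  let actB : B →ₐ[F] Module.End F M :=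
    AlgHom.ofLinearMap
      { toFun := fun b => ((TensorProduct.map (LinearMap.id : A →ₗ[K] A) (LB b)).restrictScalars F)
        map_add' := fun b b' => by
          ext z
          induction z using TensorProduct.induction_on with
          | zero => simp
          | tmul x y =>
            change x ⊗ₜ[K] ((b + b') * y) = x ⊗ₜ[K] (b * y) + x ⊗ₜ[K] (b' * y)
            rw [add_mul, TensorProduct.tmul_add]
          | add x y hx hy => rw [map_add, hx, hy, map_add]
        map_smul' := fun f b => by
          ext z
          induction z using TensorProduct.induction_on with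
          | zero => simp
          | tmul x y =>
            change x ⊗ₜ[K] ((f • b) * y) = f • (x ⊗ₜ[K] (b * y))
            rw [← TensorProduct.tmul_smul, smul_mul_assoc]
          | add x y hx hy => rw [map_add, hx, hy, map_add] }
      (by
        ext z
        induction z using TensorProduct.induction_on with
        | zero => simp
        | tmul x y =>
          change x ⊗ₜ[K] (1 * y) = x ⊗ₜ[K] y
          rw [one_mul]
        | add x y hx hy => rw [map_add, hx, hy, map_add])
      (by
        intro b b'
        ext z
        induction z using TensorProduct.induction_on with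
        | zero => simp
        | tmul x y =>
          change x ⊗ₜ[K] ((b * b') * y) = x ⊗ₜ[K] (b * (b' * y))
          rw [mul_assoc]
        | add x y hx hy => rw [map_add, hx, hy, map_add])
  have hcomm : ∀ a b, Commute (actA a) (actB b) := by
    intro a b
    ext z
    induction z using TensorProduct.induction_on with
    | zero => simp
    | tmul x y => rfl
    | add x y hx hy => rw [map_add, hx, hy, map_add]
  let act : (A ⊗[F] B) →ₐ[F] Module.End F M := Algebra.TensorProduct.lift actA actB hcomm
  have := dvd_finrank_of_matrix_action r hr (act.comp e.toAlgHom)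
  rwa [dM] at this

end Pool.Y109S
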