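import Pool.Agent.Y109S.Gen

/-!
# `(a^r, b)_{rm} ≃ Mat_r((a,b)_m)`
-/

set_option autoImplicit false

open scoped TensorProduct

namespace Pool.Y109S

section twisted

variable {A : Type} [Ring A]

/-- the twisted cyclic shift matrix -/
def tsh (r : ℕ) (y : A) : Matrix (Fin r) (Fin r) A := fun i j =>
  if (i : ℕ) = j + 1 then 1 else if (i : ℕ) + r = j + 1 then y else 0

theorem mul_tsh (r : ℕ) (y : A) (X : Matrix (Fin r) (Fin r) A) (i j : Fin r) :
    (X * tsh r y) i j = if h : (j : ℕ) + 1 < r then X i ⟨j + 1, h⟩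
      else X i ⟨0, lt_of_le_of_lt (Nat.zero_le _) j.2⟩ * y := by
  rw [Matrix.mul_apply]
  split_ifs with h
  · rw [Finset.sum_eq_single ⟨(j : ℕ) + 1, h⟩]
    · simp [tsh]
    · intro l _ hl
      have h1 : (l : ℕ) ≠ j + 1 := fun h' => hl (Fin.ext h')
      have h2 : (l : ℕ) + r ≠ j + 1 := by omega
      simp [tsh, h1, h2]
    · intro h; exact absurd (Finset.mem_univ _) h
  · have hj : (j : ℕ) + 1 = r := by omega
    rw [Finset.sum_eq_single ⟨0, lt_of_le_of_lt (Nat.zero_le _) j.2⟩]
    · have h1 : ¬ (0 = (j : ℕ) + 1) := by omega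
      simp only [tsh]
      rw [if_neg h1, if_pos (by omega)]
    · intro l _ hl
      have h1 : (l : ℕ) ≠ j + 1 := by omega
      have h2 : (l : ℕ) + r ≠ j + 1 := by
        intro h'
        apply hl
        apply Fin.ext
        simp only []
        omega
      simp [tsh, h1, h2]
    · intro h; exact absurd (Finset.mem_univ _) h

theorem tsh_pow (r : ℕ) (y : A) (s : ℕ) (hs : s ≤ r) (i j : Fin r) :
    (tsh r y ^ s) i j = if (i : ℕ) = j + s then 1 else if (i : ℕ) + r = j + s then y else 0 := by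
  induction s generalizing i j with
  | zero =>
    rw [pow_zero, Matrix.one_apply]
    by_cases h : i = j
    · simp [h]
    · have h1 : (i : ℕ) ≠ j := fun h' => h (Fin.ext h')
      have h2 : (i : ℕ) + r ≠ j := by omega
      simp [h, h1, h2]
  | succ s ih =>
    rw [pow_succ, mul_tsh]
    split_ifs with h h1 h2 h3 h4
    · rw [ih (by omega)]
      rw [if_pos]; simp only []; omega
    · rw [ih (by omega)]
      rw [if_neg (by simp only []; omega), if_pos (by simp only []; omega)]
    · rw [ih (by omega)]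
      rw [if_neg (by simp only []; omega), if_neg (by simp only []; omega)]
    · exfalso; omega
    · rw [ih (by omega)]
      rw [if_pos (by simp only []; omega), one_mul]
    · rw [ih (by omega)]
      rw [if_neg (by simp only []; omega), if_neg (by simp only []; omega), zero_mul]

theorem tsh_pow_self (r : ℕ) (y : A) : tsh r y ^ r = Matrix.diagonal (fun _ => y) := by
  ext i j
  rw [tsh_pow r y r le_rfl, Matrix.diagonal_apply]
  by_cases h : i = j
  · subst h
    rw [if_neg (by have := i.2; omega), if_pos rfl, if_pos rfl]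
  · have h1 : (i : ℕ) ≠ j := fun h' => h (Fin.ext h')
    rw [if_neg (by have := i.2; omega), if_neg (by omega), if_neg h]

end twisted

variable {F : Type} [Field F]

theorem diagonal_algebraMap {A : Type} [Ring A] [Algebra F A] (r : ℕ) (a : F) :
    Matrix.diagonal (fun _ : Fin r => algebraMap F A a) =
      algebraMap F (Matrix (Fin r) (Fin r) A) a := by
  rw [Matrix.algebraMap_eq_diagonal]; rfl

/-- the pair in `Mat_r((a,b)_m)` satisfying the relations of `(a^r, b)_{rm}` -/
noncomputable def matQuad {n r m : ℕ} (hnrm : n = r * m) {ξ : F} (hξ : ξ ^ n = 1) (a b : F) :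
    Quad F (Matrix (Fin r) (Fin r) (Symb m (ξ ^ r) a b)) n 1 ξ 1 (a ^ r) b 1 1 where
  U := Matrix.diagonal (fun i : Fin r => ξ ^ (i : ℕ) • Symb.u m (ξ ^ r) a b)
  V := tsh r (Symb.v m (ξ ^ r) a b)
  W := 1
  Z := 1
  hU := by
    rw [Matrix.diagonal_pow, ← diagonal_algebraMap]
    congr 1
    funext i
    rw [Pi.pow_apply, smul_pow, ← pow_mul, mul_comm (i : ℕ) n, pow_mul, hξ, one_pow, one_smul,
      hnrm, mul_comm r m, pow_mul, Symb.u_pow, map_pow]
  hV := by
    rw [hnrm, pow_mul, tsh_pow_self, Matrix.diagonal_pow, ← diagonal_algebraMap]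
    congr 1
    funext i
    rw [Pi.pow_apply, Symb.v_pow]
  hUV := by
    ext i j
    rw [Matrix.diagonal_mul, Matrix.smul_apply, Matrix.mul_diagonal]
    simp only [tsh]
    split_ifs with h1 h2
    · rw [mul_one, one_mul, smul_smul, h1, pow_succ']
    · have hi : (i : ℕ) = 0 := by omega
      have hj : (j : ℕ) + 1 = r := by omega
      rw [hi, pow_zero, one_smul, Symb.uv, mul_smul_comm, smul_smul, ← pow_succ', hj]
    · simp
  hW := by simp
  hZ := by simp
  hWZ := by simp
  UW := Commute.one_right _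
  UZ := Commute.one_right _
  VW := Commute.one_right _
  VZ := Commute.one_right _

theorem bij_of_indep {S R ι : Type} [Ring S] [Ring R] [Algebra F S] [Algebra F R] [Fintype ι]
    (f : S →ₐ[F] R) (m : ι → S) (hspan : Submodule.span F (Set.range m) = ⊤)
    (hlin : LinearIndependent F (fun i => f (m i))) [Module.Finite F R]
    (hcard : Fintype.card ι = Module.finrank F R) : Function.Bijective f := by
  constructor
  · rw [injective_iff_map_eq_zero]
    intro x hx
    have hx1 : x ∈ Submodule.span F (Set.range m) := by rw [hspan]; exact Submodule.mem_top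
    obtain ⟨c, rfl⟩ := (Submodule.mem_span_range_iff_exists_fun F).1 hx1
    rw [map_sum] at hx
    have h1 : ∑ i, c i • f (m i) = 0 := by
      rw [← hx]
      exact Finset.sum_congr rfl fun i _ => (map_smul f _ _).symm
    have h2 := Fintype.linearIndependent_iff.1 hlin c h1
    exact Finset.sum_eq_zero fun i _ => by rw [h2 i, zero_smul]
  · have htop : Submodule.span F (Set.range (fun i => f (m i))) = ⊤ :=
      hlin.span_eq_top_of_card_eq_finrank' hcard
    intro y
    have hy : y ∈ Submodule.span F (Set.range (fun i => f (m i))) := by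
      rw [htop]; exact Submodule.mem_top
    obtain ⟨c, rfl⟩ := (Submodule.mem_span_range_iff_exists_fun F).1 hy
    refine ⟨∑ i, c i • m i, ?_⟩
    rw [map_sum]
    exact Finset.sum_congr rfl fun i _ => map_smul f _ _

theorem Quad.linInd_one {R : Type} [Ring R] [Algebra F R] [Nontrivial R] {n : ℕ} {ξ a b : F}
    (Q : Quad F R n 1 ξ 1 a b 1 1) (hn : 0 < n) (hξ : IsPrimitiveRoot ξ n) (ha : a ≠ 0)
    (hb : b ≠ 0) : LinearIndependent F (fun p : Fin n × Fin n => Q.mon p.1 p.2 0 0) := by
  have hlin := Q.linearIndependent hn one_pos hξ IsPrimitiveRoot.one ha hb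
    one_ne_zero one_ne_zero
  have h1 : Function.Injective (fun p : Fin n × Fin n =>
      ((p, ((0 : Fin 1), (0 : Fin 1))) : (Fin n × Fin n) × (Fin 1 × Fin 1))) := by
    intro p p' h
    exact (Prod.mk.inj h).1
  have h2 := hlin.comp (fun p : Fin n × Fin n =>
      ((p, ((0 : Fin 1), (0 : Fin 1))) : (Fin n × Fin n) × (Fin 1 × Fin 1))) h1
  have e : ((fun g : (Fin n × Fin n) × (Fin 1 × Fin 1) => Q.mon g.1.1 g.1.2 g.2.1 g.2.2) ∘
      (fun p : Fin n × Fin n =>
      ((p, ((0 : Fin 1), (0 : Fin 1))) : (Fin n × Fin n) × (Fin 1 × Fin 1)))) =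
      (fun p : Fin n × Fin n => Q.mon p.1 p.2 0 0) := by
    funext p
    simp only [Function.comp_apply, Fin.val_zero]
  rw [e] at h2
  exact h2

/-- an algebra of dimension `n ^ 2` containing a pair is the symbol algebra -/
theorem exists_equiv_of_quad {R : Type} [Ring R] [Algebra F R] [Nontrivial R] {n : ℕ} {ξ a b : F}
    (Q : Quad F R n 1 ξ 1 a b 1 1) (hn : 0 < n) (hξ : IsPrimitiveRoot ξ n) (ha : a ≠ 0)
    (hb : b ≠ 0) [Module.Finite F R] (hR : Module.finrank F R = n ^ 2) :
    Nonempty (Symb n ξ a b ≃ₐ[F] R) := by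
  have hspan := Symb.span_mon (a := a) (b := b) hn (hξ.ne_zero hn.ne')
  have hlin2 := Q.linInd_one hn hξ ha hb
  have himg : (fun p : Fin n × Fin n => (Symb.lift Q.U Q.V Q.hU Q.hV Q.hUV)
      (Symb.mon n ξ a b (p.1, p.2))) = fun p : Fin n × Fin n => Q.mon p.1 p.2 0 0 := by
    funext p
    simp only [Symb.mon, map_mul, map_pow, Symb.lift_u, Symb.lift_v, Quad.mon, pow_zero, mul_one]
  have hbij := bij_of_indep (Symb.lift Q.U Q.V Q.hU Q.hV Q.hUV)
    (fun p : Fin n × Fin n => Symb.mon n ξ a b (p.1, p.2)) hspan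
    (by rw [himg]; exact hlin2) (by rw [hR]; simp [pow_two])
  exact ⟨AlgEquiv.ofBijective _ hbij⟩

/-- `(a^r, b)_{rm} ≃ Mat_r((a,b)_m)` -/
theorem exists_matEquiv {n r m : ℕ} (hnrm : n = r * m) (hr : 0 < r) (hm : 0 < m) {ξ : F}
    (hξ : IsPrimitiveRoot ξ n) {a b : F} (ha : a ≠ 0) (hb : b ≠ 0)
    (hfin : Module.Finite F (Symb m (ξ ^ r) a b))
    (hdim : Module.finrank F (Symb m (ξ ^ r) a b) = m ^ 2) :
    Nonempty (Symb n ξ (a ^ r) b ≃ₐ[F] Matrix (Fin r) (Fin r) (Symb m (ξ ^ r) a b)) := by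
  have hn : 0 < n := by rw [hnrm]; exact Nat.mul_pos hr hm
  have hξr : (ξ ^ r) ^ m = 1 := by rw [← pow_mul, ← hnrm, hξ.pow_eq_one]
  have nt := Symb.nontrivial hm hξr a b
  have : NeZero r := ⟨hr.ne'⟩
  have nt2 : Nontrivial (Matrix (Fin r) (Fin r) (Symb m (ξ ^ r) a b)) := inferInstance
  have hcard : Module.finrank F (Matrix (Fin r) (Fin r) (Symb m (ξ ^ r) a b)) = n ^ 2 := by
    rw [Module.finrank_matrix, hdim, hnrm]
    simp only [Fintype.card_fin]
    ring
  exact exists_equiv_of_quad (matQuad hnrm hξ.pow_eq_one a b) hn hξ (pow_ne_zero r ha) hb hcard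

/-- dimension of a symbol algebra -/
theorem Symb.finrank_eq {n : ℕ} (hn : 0 < n) {ξ : F} (hξ : IsPrimitiveRoot ξ n) {a b : F}
    (ha : a ≠ 0) (hb : b ≠ 0) : Module.finrank F (Symb n ξ a b) = n ^ 2 := by
  have h := finrank_std (F := F) (a := a) (b := b) (c := 1) (d := 1) hn one_pos hξ
    IsPrimitiveRoot.one ha hb one_ne_zero one_ne_zero
  rw [Module.finrank_tensorProduct, mul_one] at h
  have h1 := (Symb.finrank_le one_pos one_ne_zero (1 : F) (1 : F)).2
  have h2 := (Symb.finrank_le hn (hξ.ne_zero hn.ne') a b).2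
  have h3 : Module.finrank F (Symb 1 (1 : F) 1 1) ≤ 1 := by simpa using h1
  have h4 : n ^ 2 ≤ Module.finrank F (Symb n ξ a b) := by
    rw [← h]
    calc Module.finrank F (Symb n ξ a b) * Module.finrank F (Symb 1 (1 : F) 1 1)
        ≤ Module.finrank F (Symb n ξ a b) * 1 := Nat.mul_le_mul_left _ h3
      _ = _ := mul_one _
  exact le_antisymm h2 h4

end Pool.Y109S
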