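import Pool.Agent.Y109S.Div
import Pool.Agent.Y109S.Mat

/-!
# Index and common maximal subfields; the generic examples
-/

set_option autoImplicit false

open scoped TensorProduct

namespace Pool.Y109S

/-- `A` is a matrix algebra over a division algebra `D` of dimension `m ^ 2` over `F`. For a central
simple algebra `A` this says that `A` has index `m`. -/
def HasIndex (F A : Type) [Field F] [Ring A] [Algebra F A] (m : ℕ) : Prop :=
  ∃ (D : Type) (_ : DivisionRing D) (_ : Algebra F D) (r : ℕ), 0 < r ∧ 0 < m ∧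
    Module.finrank F D = m ^ 2 ∧ Nonempty (A ≃ₐ[F] Matrix (Fin r) (Fin r) D)

/-- `A` and `B` (algebras of degree `n`) share a common maximal subfield: there is a field extension
`K/F` of degree `n` which embeds into both. -/
def ShareMaxSubfield (n : ℕ) (F A B : Type) [Field F] [Ring A] [Ring B] [Algebra F A]
    [Algebra F B] : Prop :=
  ∃ (K : Type) (_ : Field K) (_ : Algebra F K), Module.finrank F K = n ∧
    Nonempty (K →ₐ[F] A) ∧ Nonempty (K →ₐ[F] B)

theorem HasIndex.of {F A D : Type} [Field F] [Ring A] [Algebra F A] [Ring D] [Algebra F D]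
    [Nontrivial D] (hD : ∀ x y : D, x ≠ 0 → y ≠ 0 → x * y ≠ 0) [Module.Finite F D] {m r : ℕ}
    (hr : 0 < r) (hm : 0 < m) (hdim : Module.finrank F D = m ^ 2)
    (e : A ≃ₐ[F] Matrix (Fin r) (Fin r) D) : HasIndex F A m := by
  have : NoZeroDivisors D := ⟨fun {a b} h => by
    by_contra hcon
    rw [not_or] at hcon
    exact hD a b hcon.1 hcon.2 h⟩
  have : IsDomain D := NoZeroDivisors.to_isDomain D
  exact ⟨D, divisionRingOfFiniteDimensional F D, ‹Algebra F D›, r, hr, hm, hdim, ⟨e⟩⟩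

theorem HasIndex.congr {F A B : Type} [Field F] [Ring A] [Ring B] [Algebra F A] [Algebra F B]
    {m : ℕ} (h : HasIndex F A m) (e : B ≃ₐ[F] A) : HasIndex F B m := by
  obtain ⟨D, i1, i2, r, hr, hm, hdim, ⟨f⟩⟩ := h
  exact ⟨D, i1, i2, r, hr, hm, hdim, ⟨e.trans f⟩⟩

/-- if algebras of dimension `n ^ 2` share a subfield of degree `n`, the index of their product
divides `n`. -/
theorem index_dvd_of_share {F A B : Type} [Field F] [Ring A] [Ring B] [Algebra F A] [Algebra F B]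
    {n : ℕ} (hn : 0 < n) (hA : Module.finrank F A = n ^ 2) (hB : Module.finrank F B = n ^ 2)
    (hsh : ShareMaxSubfield n F A B) {m : ℕ} (hidx : HasIndex F (A ⊗[F] B) m) : m ∣ n := by
  obtain ⟨K, iK, aK, hK, ⟨φ⟩, ⟨ψ⟩⟩ := hsh
  obtain ⟨D, i1, i2, r, hr, hm, hdim, ⟨f⟩⟩ := hidx
  have : Module.Finite F A := Module.finite_of_finrank_pos (by rw [hA]; positivity)
  have : Module.Finite F B := Module.finite_of_finrank_pos (by rw [hB]; positivity)
  have : Nontrivial A := Module.nontrivial_of_finrank_pos (R := F) (by rw [hA]; positivity)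
  have : Nontrivial B := Module.nontrivial_of_finrank_pos (R := F) (by rw [hB]; positivity)
  have : Module.Finite F D := Module.finite_of_finrank_pos (by rw [hdim]; positivity)
  have h1 := dvd_of_common_subfield n hn hA hB hK φ ψ r hr f.symm
  have h2 : Module.finrank F (A ⊗[F] B) = Module.finrank F (Matrix (Fin r) (Fin r) D) :=
    f.toLinearEquiv.finrank_eq
  rw [Module.finrank_tensorProduct, hA, hB, Module.finrank_matrix, hdim] at h2
  simp only [Fintype.card_fin] at h2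
  have h3 : (n ^ 2) ^ 2 = (r * m) ^ 2 := by
    calc (n ^ 2) ^ 2 = n ^ 2 * n ^ 2 := by ring
      _ = r * r * m ^ 2 := h2
      _ = (r * m) ^ 2 := by ring
  have h4 : n ^ 2 = r * m := Nat.pow_left_injective (n := 2) (by norm_num) h3
  rw [hdim] at h1
  have h5 : n ^ 2 * m ∣ n ^ 2 * n := by
    calc n ^ 2 * m = r * m ^ 2 := by rw [h4]; ring
      _ ∣ n ^ 3 := h1
      _ = n ^ 2 * n := by ring
  exact Nat.dvd_of_mul_dvd_mul_left (by positivity) h5

theorem Symb.finite {F : Type} [Field F] {n : ℕ} (hn : 0 < n) {ξ : F} (hξ : IsPrimitiveRoot ξ n)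
    (a b : F) : Module.Finite F (Symb n ξ a b) :=
  (Symb.finrank_le hn (hξ.ne_zero hn.ne') a b).1

theorem matrix_chain {F A B A1 B1 : Type} [Field F] [Ring A] [Ring B] [Ring A1] [Ring B1]
    [Algebra F A] [Algebra F B] [Algebra F A1] [Algebra F B1] {r1 r2 : ℕ}
    (e1 : A ≃ₐ[F] Matrix (Fin r1) (Fin r1) A1) (e2 : B ≃ₐ[F] Matrix (Fin r2) (Fin r2) B1) :
    Nonempty (A ⊗[F] B ≃ₐ[F] Matrix (Fin (r1 * r2)) (Fin (r1 * r2)) (A1 ⊗[F] B1)) :=
  ⟨((Algebra.TensorProduct.congr e1 e2).trans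
      (Matrix.kroneckerTMulAlgEquiv (Fin r1) (Fin r2) F F A1 B1)).trans
      (Matrix.reindexAlgEquiv F _ finProdFinEquiv)⟩

/-- the generic examples: over `F = k((t₀, …, t₃))` the algebra
`(t₀^{r₁}, t₁)_n ⊗ (t₂^{r₂}, t₃)_n` with `n = r₁ m₁ = r₂ m₂` has index `m₁ m₂`. -/
theorem generic_index {k : Type} [Field k] {n : ℕ} {ζ : k} (hζ : IsPrimitiveRoot ζ n)
    {r1 m1 r2 m2 : ℕ} (h1 : n = r1 * m1) (h2 : n = r2 * m2) (hn : 0 < n) :
    HasIndex (LS k) (Symb n (HahnSeries.C ζ : LS k) (tvar k 0 ^ r1) (tvar k 1) ⊗[LS k]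
      Symb n (HahnSeries.C ζ : LS k) (tvar k 2 ^ r2) (tvar k 3)) (m1 * m2) := by
  have hr1 : 0 < r1 := Nat.pos_of_ne_zero (by rintro rfl; omega)
  have hm1 : 0 < m1 := Nat.pos_of_ne_zero (by rintro rfl; omega)
  have hr2 : 0 < r2 := Nat.pos_of_ne_zero (by rintro rfl; omega)
  have hm2 : 0 < m2 := Nat.pos_of_ne_zero (by rintro rfl; omega)
  have p1 : IsPrimitiveRoot (ζ ^ r1) m1 := hζ.pow hn h1
  have p2 : IsPrimitiveRoot (ζ ^ r2) m2 := hζ.pow hn h2
  have c1 : (HahnSeries.C ζ : LS k) ^ r1 = HahnSeries.C (ζ ^ r1) := (map_pow _ _ _).symm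
  have c2 : (HahnSeries.C ζ : LS k) ^ r2 = HahnSeries.C (ζ ^ r2) := (map_pow _ _ _).symm
  have hC := C_prim hζ
  have hC1 : IsPrimitiveRoot ((HahnSeries.C ζ : LS k) ^ r1) m1 := by rw [c1]; exact C_prim p1
  have hC2 : IsPrimitiveRoot ((HahnSeries.C ζ : LS k) ^ r2) m2 := by rw [c2]; exact C_prim p2
  have t := tvar_ne_zero k
  have f1 := Symb.finite hm1 hC1 (tvar k 0) (tvar k 1)
  have f2 := Symb.finite hm2 hC2 (tvar k 2) (tvar k 3)
  obtain ⟨e1⟩ := exists_matEquiv h1 hr1 hm1 hC (t 0) (t 1) f1 (Symb.finrank_eq hm1 hC1 (t 0) (t 1))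
  obtain ⟨e2⟩ := exists_matEquiv h2 hr2 hm2 hC (t 2) (t 3) f2 (Symb.finrank_eq hm2 hC2 (t 2) (t 3))
  have n1 := Symb.nontrivial hm1 hC1.pow_eq_one (tvar k 0) (tvar k 1)
  have n2 := Symb.nontrivial hm2 hC2.pow_eq_one (tvar k 2) (tvar k 3)
  have hdiv := generic_mul_ne_zero (k := k) hm1 hm2 p1 p2
  rw [← c1, ← c2] at hdiv
  have hdim : Module.finrank (LS k)
      (Symb m1 ((HahnSeries.C ζ : LS k) ^ r1) (tvar k 0) (tvar k 1) ⊗[LS k]
        Symb m2 ((HahnSeries.C ζ : LS k) ^ r2) (tvar k 2) (tvar k 3)) = (m1 * m2) ^ 2 :=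
    finrank_std hm1 hm2 hC1 hC2 (t 0) (t 1) (t 2) (t 3)
  obtain ⟨e⟩ := matrix_chain e1 e2
  exact HasIndex.of hdiv (Nat.mul_pos hr1 hr2) (Nat.mul_pos hm1 hm2) hdim e

/-- every divisor of `n ^ 2` is a product of two divisors of `n` -/
theorem exists_factor {n m : ℕ} (hn : 0 < n) (hm : m ∣ n ^ 2) :
    ∃ r1 m1 r2 m2 : ℕ, n = r1 * m1 ∧ n = r2 * m2 ∧ m = m1 * m2 := by
  have hg : 0 < Nat.gcd m n := Nat.gcd_pos_of_pos_right _ hn
  obtain ⟨m', n', hcop, hm', hn'⟩ := Nat.exists_coprime m n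
  have h1 : m' ∣ n := by
    have h2 : m' * Nat.gcd m n ∣ (n' * n) * Nat.gcd m n := by
      calc m' * Nat.gcd m n = m := hm'.symm
        _ ∣ n ^ 2 := hm
        _ = n * n := pow_two n
        _ = (n' * Nat.gcd m n) * n := by rw [← hn']
        _ = (n' * n) * Nat.gcd m n := by ring
    have h3 : m' ∣ n' * n := Nat.dvd_of_mul_dvd_mul_right hg h2
    exact hcop.dvd_of_dvd_mul_left h3
  obtain ⟨r2, hr2⟩ := h1
  exact ⟨n', Nat.gcd m n, r2, m', hn', by rw [mul_comm]; exact hr2, by rw [mul_comm]; exact hm'⟩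

end Pool.Y109S
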