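import Pool.Agent.Y109S.Lead

/-!
# Two commuting pairs of generators: independence of the monomials
-/

set_option autoImplicit false

open scoped TensorProduct

namespace Pool.Y109S

section pair

variable {F R : Type} [Field F] [Ring R] [Algebra F R] {ξ : F} {U V : R}

theorem pairU (hUV : U * V = ξ • (V * U)) (i j : ℕ) :
    U * (U ^ i * V ^ j) = ξ ^ j • (U ^ i * V ^ j * U) := by
  have h := pow_comm_pow hUV 1 j
  rw [pow_one, one_mul] at h
  rw [← mul_assoc, ← pow_succ', pow_succ, mul_assoc, h, mul_smul_comm, mul_assoc]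

theorem pairV (hUV : U * V = ξ • (V * U)) (i j : ℕ) :
    (U ^ i * V ^ j) * V = ξ ^ i • (V * (U ^ i * V ^ j)) := by
  have h := pow_comm_pow hUV i 1
  rw [pow_one, mul_one] at h
  rw [mul_assoc, ← pow_succ, pow_succ', ← mul_assoc, h, smul_mul_assoc, mul_assoc]

end pair

/-- two commuting pairs of `ξ`-commuting generators -/
structure Quad (F R : Type) [Field F] [Ring R] [Algebra F R] (n q : ℕ) (ξ η a b c d : F) where
  U : R
  V : R
  W : R
  Z : R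
  hU : U ^ n = algebraMap F R a
  hV : V ^ n = algebraMap F R b
  hUV : U * V = ξ • (V * U)
  hW : W ^ q = algebraMap F R c
  hZ : Z ^ q = algebraMap F R d
  hWZ : W * Z = η • (Z * W)
  UW : Commute U W
  UZ : Commute U Z
  VW : Commute V W
  VZ : Commute V Z

namespace Quad

variable {F R : Type} [Field F] [Ring R] [Algebra F R] {n q : ℕ} {ξ η a b c d : F}
  (Q : Quad F R n q ξ η a b c d)

/-- the monomials -/
def mon (i j k l : ℕ) : R := (Q.U ^ i * Q.V ^ j) * (Q.W ^ k * Q.Z ^ l)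

theorem U_mon (i j k l : ℕ) : Q.U * Q.mon i j k l = ξ ^ j • (Q.mon i j k l * Q.U) := by
  have h1 : Commute Q.U (Q.W ^ k * Q.Z ^ l) := (Q.UW.pow_right k).mul_right (Q.UZ.pow_right l)
  rw [mon, ← mul_assoc, pairU Q.hUV, smul_mul_assoc, mul_assoc _ Q.U, h1.eq, ← mul_assoc]

theorem mon_V (i j k l : ℕ) : Q.mon i j k l * Q.V = ξ ^ i • (Q.V * Q.mon i j k l) := by
  have h1 : Commute Q.V (Q.W ^ k * Q.Z ^ l) := (Q.VW.pow_right k).mul_right (Q.VZ.pow_right l)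
  rw [mon, mul_assoc, ← h1.eq, ← mul_assoc, pairV Q.hUV, smul_mul_assoc, mul_assoc]

theorem W_mon (i j k l : ℕ) : Q.W * Q.mon i j k l = η ^ l • (Q.mon i j k l * Q.W) := by
  have h1 : Commute Q.W (Q.U ^ i * Q.V ^ j) :=
    (Q.UW.symm.pow_right i).mul_right (Q.VW.symm.pow_right j)
  rw [mon, ← mul_assoc, h1.eq, mul_assoc _ Q.W, pairU Q.hWZ, mul_smul_comm, ← mul_assoc]

theorem mon_Z (i j k l : ℕ) : Q.mon i j k l * Q.Z = η ^ k • (Q.Z * Q.mon i j k l) := by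
  have h1 : Commute Q.Z (Q.U ^ i * Q.V ^ j) :=
    (Q.UZ.symm.pow_right i).mul_right (Q.VZ.symm.pow_right j)
  rw [mon, mul_assoc, pairV Q.hWZ, mul_smul_comm, ← mul_assoc _ Q.Z, ← h1.eq, mul_assoc]

include Q in
theorem isUnit_U (hn : 0 < n) (ha : a ≠ 0) : IsUnit Q.U := by
  have h : IsUnit (Q.U ^ n) := by
    rw [Q.hU]; exact (IsUnit.mk0 a ha).map (algebraMap F R)
  exact (isUnit_pow_iff hn.ne').1 h

theorem isUnit_V (hn : 0 < n) (hb : b ≠ 0) : IsUnit Q.V := by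
  have h : IsUnit (Q.V ^ n) := by
    rw [Q.hV]; exact (IsUnit.mk0 b hb).map (algebraMap F R)
  exact (isUnit_pow_iff hn.ne').1 h

theorem isUnit_W (hq : 0 < q) (hc : c ≠ 0) : IsUnit Q.W := by
  have h : IsUnit (Q.W ^ q) := by
    rw [Q.hW]; exact (IsUnit.mk0 c hc).map (algebraMap F R)
  exact (isUnit_pow_iff hq.ne').1 h

theorem isUnit_Z (hq : 0 < q) (hd : d ≠ 0) : IsUnit Q.Z := by
  have h : IsUnit (Q.Z ^ q) := by
    rw [Q.hZ]; exact (IsUnit.mk0 d hd).map (algebraMap F R)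
  exact (isUnit_pow_iff hq.ne').1 h

theorem linearIndependent [Nontrivial R] (hn : 0 < n) (hq : 0 < q)
    (hξ : IsPrimitiveRoot ξ n) (hη : IsPrimitiveRoot η q)
    (ha : a ≠ 0) (hb : b ≠ 0) (hc : c ≠ 0) (hd : d ≠ 0) :
    LinearIndependent F (fun g : (Fin n × Fin n) × (Fin q × Fin q) =>
      Q.mon g.1.1 g.1.2 g.2.1 g.2.2) := by
  classical
  obtain ⟨u, hu⟩ := Q.isUnit_U hn ha
  obtain ⟨v, hv⟩ := Q.isUnit_V hn hb
  obtain ⟨w, hw⟩ := Q.isUnit_W hq hc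
  obtain ⟨z, hz⟩ := Q.isUnit_Z hq hd
  refine linInd_of_chars _ ?_ ?_
  · intro g
    have : IsUnit (Q.mon g.1.1 g.1.2 g.2.1 g.2.2) := by
      rw [mon, ← hu, ← hv, ← hw, ← hz]
      exact ((u.isUnit.pow _).mul (v.isUnit.pow _)).mul ((w.isUnit.pow _).mul (z.isUnit.pow _))
    exact this.ne_zero
  · rintro ⟨⟨i, j⟩, ⟨k, l⟩⟩ ⟨⟨i', j'⟩, ⟨k', l'⟩⟩ hne
    by_cases h1 : i = i'
    swap
    · refine ⟨LinearMap.mulLeft F ((v⁻¹ : Rˣ) : R) ∘ₗ LinearMap.mulRight F (Q.V),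
        fun g => ξ ^ (g.1.1 : ℕ), ?_, ?_⟩
      · intro g
        simp only [LinearMap.comp_apply, LinearMap.mulRight_apply, LinearMap.mulLeft_apply]
        rw [Q.mon_V, mul_smul_comm, ← mul_assoc, ← hv, Units.inv_mul, one_mul]
      · intro h
        exact h1 (Fin.ext (hξ.pow_inj i.2 i'.2 h))
    by_cases h2 : j = j'
    swap
    · refine ⟨LinearMap.mulRight F ((u⁻¹ : Rˣ) : R) ∘ₗ LinearMap.mulLeft F (Q.U),
        fun g => ξ ^ (g.1.2 : ℕ), ?_, ?_⟩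
      · intro g
        simp only [LinearMap.comp_apply, LinearMap.mulRight_apply, LinearMap.mulLeft_apply]
        rw [Q.U_mon, smul_mul_assoc, mul_assoc, ← hu, Units.mul_inv, mul_one]
      · intro h
        exact h2 (Fin.ext (hξ.pow_inj j.2 j'.2 h))
    by_cases h3 : k = k'
    swap
    · refine ⟨LinearMap.mulLeft F ((z⁻¹ : Rˣ) : R) ∘ₗ LinearMap.mulRight F (Q.Z),
        fun g => η ^ (g.2.1 : ℕ), ?_, ?_⟩
      · intro g
        simp only [LinearMap.comp_apply, LinearMap.mulRight_apply, LinearMap.mulLeft_apply]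
        rw [Q.mon_Z, mul_smul_comm, ← mul_assoc, ← hz, Units.inv_mul, one_mul]
      · intro h
        exact h3 (Fin.ext (hη.pow_inj k.2 k'.2 h))
    by_cases h4 : l = l'
    swap
    · refine ⟨LinearMap.mulRight F ((w⁻¹ : Rˣ) : R) ∘ₗ LinearMap.mulLeft F (Q.W),
        fun g => η ^ (g.2.2 : ℕ), ?_, ?_⟩
      · intro g
        simp only [LinearMap.comp_apply, LinearMap.mulRight_apply, LinearMap.mulLeft_apply]
        rw [Q.W_mon, smul_mul_assoc, mul_assoc, ← hw, Units.mul_inv, mul_one]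
      · intro h
        exact h4 (Fin.ext (hη.pow_inj l.2 l'.2 h))
    exact absurd (by rw [h1, h2, h3, h4]) hne

/-- multiplication of monomials, with natural number exponents -/
theorem mon_mul_mon (hξ : ξ ≠ 0) (hη : η ≠ 0) (i j k l i' j' k' l' : ℕ) :
    Q.mon i j k l * Q.mon i' j' k' l' =
      ((ξ ^ (i' * j))⁻¹ * (η ^ (k' * l))⁻¹) • Q.mon (i + i') (j + j') (k + k') (l + l') := by
  have h1 : Commute (Q.W ^ k * Q.Z ^ l) (Q.U ^ i' * Q.V ^ j') := by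
    apply Commute.mul_left <;> apply Commute.mul_right
    · exact (Q.UW.symm.pow_pow k i')
    · exact (Q.VW.symm.pow_pow k j')
    · exact (Q.UZ.symm.pow_pow l i')
    · exact (Q.VZ.symm.pow_pow l j')
  have h2 : Q.V ^ j * Q.U ^ i' = (ξ ^ (i' * j))⁻¹ • (Q.U ^ i' * Q.V ^ j) := by
    rw [pow_comm_pow Q.hUV, smul_smul, inv_mul_cancel₀ (pow_ne_zero _ hξ), one_smul]
  have h3 : Q.Z ^ l * Q.W ^ k' = (η ^ (k' * l))⁻¹ • (Q.W ^ k' * Q.Z ^ l) := by
    rw [pow_comm_pow Q.hWZ, smul_smul, inv_mul_cancel₀ (pow_ne_zero _ hη), one_smul]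
  have h4 : (Q.U ^ i * Q.V ^ j) * (Q.U ^ i' * Q.V ^ j') =
      (ξ ^ (i' * j))⁻¹ • (Q.U ^ (i + i') * Q.V ^ (j + j')) := by
    rw [mul_assoc, ← mul_assoc (Q.V ^ j), h2, smul_mul_assoc, mul_smul_comm, pow_add, pow_add]
    simp only [mul_assoc]
  have h5 : (Q.W ^ k * Q.Z ^ l) * (Q.W ^ k' * Q.Z ^ l') =
      (η ^ (k' * l))⁻¹ • (Q.W ^ (k + k') * Q.Z ^ (l + l')) := by
    rw [mul_assoc, ← mul_assoc (Q.Z ^ l), h3, smul_mul_assoc, mul_smul_comm, pow_add, pow_add]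
    simp only [mul_assoc]
  calc Q.mon i j k l * Q.mon i' j' k' l'
      = ((Q.U ^ i * Q.V ^ j) * (Q.U ^ i' * Q.V ^ j')) *
        ((Q.W ^ k * Q.Z ^ l) * (Q.W ^ k' * Q.Z ^ l')) := by
        rw [mon, mon, mul_assoc, ← mul_assoc (Q.W ^ k * Q.Z ^ l), h1.eq]
        simp only [mul_assoc]
    _ = _ := by
        rw [h4, h5, smul_mul_smul_comm, mon]

/-- reduction of the exponents -/
theorem mon_mod (i j k l : ℕ) :
    Q.mon i j k l = (a ^ (i / n) * b ^ (j / n) * (c ^ (k / q) * d ^ (l / q))) •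
      Q.mon (i % n) (j % n) (k % q) (l % q) := by
  have e1 : Q.U ^ i = a ^ (i / n) • Q.U ^ (i % n) := by
    conv_lhs => rw [← Nat.div_add_mod i n]
    rw [pow_add, pow_mul, Q.hU, ← map_pow, ← Algebra.smul_def]
  have e2 : Q.V ^ j = b ^ (j / n) • Q.V ^ (j % n) := by
    conv_lhs => rw [← Nat.div_add_mod j n]
    rw [pow_add, pow_mul, Q.hV, ← map_pow, ← Algebra.smul_def]
  have e3 : Q.W ^ k = c ^ (k / q) • Q.W ^ (k % q) := by
    conv_lhs => rw [← Nat.div_add_mod k q]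
    rw [pow_add, pow_mul, Q.hW, ← map_pow, ← Algebra.smul_def]
  have e4 : Q.Z ^ l = d ^ (l / q) • Q.Z ^ (l % q) := by
    conv_lhs => rw [← Nat.div_add_mod l q]
    rw [pow_add, pow_mul, Q.hZ, ← map_pow, ← Algebra.smul_def]
  rw [mon, e1, e2, e3, e4, smul_mul_smul_comm, smul_mul_smul_comm, smul_mul_smul_comm, mon]

end Quad

end Pool.Y109S
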