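import Mathlib

/-!
# Symbol algebras (presentation, monomial basis)

`Symb n ξ a b` is the `F`-algebra generated by `u, v` subject to `u ^ n = a`, `v ^ n = b`,
`u * v = ξ • v * u`.
-/

set_option autoImplicit false

open scoped TensorProduct

namespace Pool.Y109S

/-- The defining relations of the symbol algebra `(a,b)_n`: `u ^ n = a`, `v ^ n = b`,
`u v = ξ v u`, where `u` and `v` are the two generators of the free algebra. -/
inductive SymbRel {F : Type} [Field F] (n : ℕ) (ξ a b : F) :
    FreeAlgebra F (Fin 2) → FreeAlgebra F (Fin 2) → Prop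
  | powu : SymbRel n ξ a b (FreeAlgebra.ι F 0 ^ n) (algebraMap F _ a)
  | powv : SymbRel n ξ a b (FreeAlgebra.ι F 1 ^ n) (algebraMap F _ b)
  | comm : SymbRel n ξ a b (FreeAlgebra.ι F 0 * FreeAlgebra.ι F 1)
      (algebraMap F _ ξ * (FreeAlgebra.ι F 1 * FreeAlgebra.ι F 0))

/-- The symbol algebra `(a,b)_n` (with respect to `ξ`): the `F`-algebra generated by `u, v`
subject to `u ^ n = a`, `v ^ n = b`, `u v = ξ v u`. -/
abbrev Symb {F : Type} [Field F] (n : ℕ) (ξ a b : F) : Type := RingQuot (SymbRel n ξ a b)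

section basic

variable {F : Type} [Field F] (n : ℕ) (ξ a b : F)

/-- the generator `u` -/
noncomputable def Symb.u : Symb n ξ a b := RingQuot.mkAlgHom F (SymbRel n ξ a b) (FreeAlgebra.ι F 0)

/-- the generator `v` -/
noncomputable def Symb.v : Symb n ξ a b := RingQuot.mkAlgHom F (SymbRel n ξ a b) (FreeAlgebra.ι F 1)

theorem Symb.u_pow : Symb.u n ξ a b ^ n = algebraMap F _ a := by
  have h := RingQuot.mkAlgHom_rel F (SymbRel.powu (n := n) (ξ := ξ) (a := a) (b := b))
  rw [map_pow, AlgHom.commutes] at h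
  exact h

theorem Symb.v_pow : Symb.v n ξ a b ^ n = algebraMap F _ b := by
  have h := RingQuot.mkAlgHom_rel F (SymbRel.powv (n := n) (ξ := ξ) (a := a) (b := b))
  rw [map_pow, AlgHom.commutes] at h
  exact h

theorem Symb.uv : Symb.u n ξ a b * Symb.v n ξ a b = ξ • (Symb.v n ξ a b * Symb.u n ξ a b) := by
  have h := RingQuot.mkAlgHom_rel F (SymbRel.comm (n := n) (ξ := ξ) (a := a) (b := b))
  rw [map_mul, map_mul, map_mul, AlgHom.commutes] at h
  rw [Algebra.smul_def]
  exact h

variable {n ξ a b}

/-- universal property -/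
noncomputable def Symb.lift {R : Type} [Ring R] [Algebra F R] (U V : R)
    (hU : U ^ n = algebraMap F R a) (hV : V ^ n = algebraMap F R b)
    (hUV : U * V = ξ • (V * U)) : Symb n ξ a b →ₐ[F] R :=
  RingQuot.liftAlgHom F (s := SymbRel n ξ a b)
    ⟨FreeAlgebra.lift F ![U, V], by
      intro x y h
      cases h with
      | powu => simp [hU]
      | powv => simp [hV]
      | comm => simp [hUV, Algebra.smul_def]⟩

theorem Symb.lift_u {R : Type} [Ring R] [Algebra F R] (U V : R)
    (hU : U ^ n = algebraMap F R a) (hV : V ^ n = algebraMap F R b)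
    (hUV : U * V = ξ • (V * U)) : Symb.lift U V hU hV hUV (Symb.u n ξ a b) = U := by
  simp [Symb.lift, Symb.u]

theorem Symb.lift_v {R : Type} [Ring R] [Algebra F R] (U V : R)
    (hU : U ^ n = algebraMap F R a) (hV : V ^ n = algebraMap F R b)
    (hUV : U * V = ξ • (V * U)) : Symb.lift U V hU hV hUV (Symb.v n ξ a b) = V := by
  simp [Symb.lift, Symb.v]

/-- the algebra is generated by `u` and `v`: a submodule containing `1` and stable under left
multiplication by `u` and `v` is everything. -/
theorem Symb.mem_of_stable (S : Submodule F (Symb n ξ a b)) (h1 : (1 : Symb n ξ a b) ∈ S)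
    (hu : ∀ s ∈ S, Symb.u n ξ a b * s ∈ S) (hv : ∀ s ∈ S, Symb.v n ξ a b * s ∈ S)
    (x : Symb n ξ a b) : x ∈ S := by
  obtain ⟨y, rfl⟩ := RingQuot.mkAlgHom_surjective F (SymbRel n ξ a b) x
  have key : ∀ y : FreeAlgebra F (Fin 2), ∀ s ∈ S,
      RingQuot.mkAlgHom F (SymbRel n ξ a b) y * s ∈ S := by
    intro y
    induction y using FreeAlgebra.induction with
    | grade0 r =>
      intro s hs
      rw [AlgHom.commutes, ← Algebra.smul_def]
      exact S.smul_mem _ hs
    | grade1 i =>
      intro s hs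
      fin_cases i
      · exact hu s hs
      · exact hv s hs
    | mul x y hx hy =>
      intro s hs
      rw [map_mul, mul_assoc]
      exact hx _ (hy _ hs)
    | add x y hx hy =>
      intro s hs
      rw [map_add, add_mul]
      exact S.add_mem (hx _ hs) (hy _ hs)
  simpa using key y 1 h1

theorem pow_comm_pow {R : Type} [Ring R] [Algebra F R] {U V : R} (hUV : U * V = ξ • (V * U))
    (i j : ℕ) : U ^ i * V ^ j = (ξ ^ (i * j)) • (V ^ j * U ^ i) := by
  have h1 : ∀ i : ℕ, U ^ i * V = (ξ ^ i) • (V * U ^ i) := by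
    intro i
    induction i with
    | zero => simp
    | succ i ih =>
      rw [pow_succ' U i, mul_assoc, ih, mul_smul_comm, ← mul_assoc, hUV, smul_mul_assoc, smul_smul,
        mul_assoc, pow_succ ξ i]
  induction j with
  | zero => simp
  | succ j ih =>
    rw [pow_succ, ← mul_assoc, ih, smul_mul_assoc, mul_assoc, h1, mul_smul_comm, smul_smul,
      ← mul_assoc, Nat.mul_succ, pow_add]

/-- the monomials `u^i v^j` -/
noncomputable def Symb.mon (n : ℕ) (ξ a b : F) (p : ℕ × ℕ) : Symb n ξ a b :=
  Symb.u n ξ a b ^ p.1 * Symb.v n ξ a b ^ p.2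

theorem Symb.span_mon (hn : 0 < n) (hξ : ξ ≠ 0) :
    Submodule.span F (Set.range (fun p : Fin n × Fin n => Symb.mon n ξ a b (p.1, p.2))) = ⊤ := by
  set S := Submodule.span F (Set.range (fun p : Fin n × Fin n => Symb.mon n ξ a b (p.1, p.2)))
    with hS
  have hmem : ∀ i j : ℕ, i < n → j < n → Symb.mon n ξ a b (i, j) ∈ S := fun i j hi hj =>
    Submodule.subset_span ⟨(⟨i, hi⟩, ⟨j, hj⟩), rfl⟩
  rw [eq_top_iff]
  intro x _
  refine Symb.mem_of_stable S ?_ ?_ ?_ x
  · have := hmem 0 0 hn hn
    simpa [Symb.mon] using this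
  · intro s hs
    induction hs using Submodule.span_induction with
    | mem x hx =>
      obtain ⟨⟨i, j⟩, rfl⟩ := hx
      have e : Symb.u n ξ a b * Symb.mon n ξ a b (i, j) = Symb.mon n ξ a b ((i : ℕ) + 1, j) := by
        simp only [Symb.mon]
        rw [← mul_assoc, ← pow_succ']
      change Symb.u n ξ a b * Symb.mon n ξ a b (i, j) ∈ S
      rw [e]
      rcases Nat.lt_or_ge ((i : ℕ) + 1) n with h | h
      · exact hmem _ _ h j.2
      · have h2 : (i : ℕ) + 1 = n := le_antisymm i.2 h
        rw [h2]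
        have : Symb.mon n ξ a b (n, j) = a • Symb.mon n ξ a b (0, j) := by
          simp only [Symb.mon]
          rw [Symb.u_pow, ← Algebra.smul_def]
          simp
        rw [this]
        exact S.smul_mem _ (hmem _ _ hn j.2)
    | zero => simp
    | add x y _ _ hx hy => rw [mul_add]; exact S.add_mem hx hy
    | smul r x _ hx => rw [mul_smul_comm]; exact S.smul_mem _ hx
  · intro s hs
    induction hs using Submodule.span_induction with
    | mem x hx =>
      obtain ⟨⟨i, j⟩, rfl⟩ := hx
      have e : Symb.v n ξ a b * Symb.mon n ξ a b (i, j)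
          = (ξ ^ (i : ℕ))⁻¹ • Symb.mon n ξ a b (i, (j : ℕ) + 1) := by
        simp only [Symb.mon]
        have h := pow_comm_pow (Symb.uv n ξ a b) (i : ℕ) 1
        rw [pow_one, mul_one] at h
        rw [pow_succ' (Symb.v n ξ a b), ← mul_assoc, ← mul_assoc, h, smul_mul_assoc, smul_smul,
          inv_mul_cancel₀ (pow_ne_zero _ hξ), one_smul]
      change Symb.v n ξ a b * Symb.mon n ξ a b (i, j) ∈ S
      rw [e]
      refine S.smul_mem _ ?_
      rcases Nat.lt_or_ge ((j : ℕ) + 1) n with h | h
      · exact hmem _ _ i.2 h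
      · have h2 : (j : ℕ) + 1 = n := le_antisymm j.2 h
        rw [h2]
        have : Symb.mon n ξ a b (i, n) = b • Symb.mon n ξ a b (i, 0) := by
          simp only [Symb.mon]
          rw [Symb.v_pow, ← Algebra.commutes, ← Algebra.smul_def]
          simp
        rw [this]
        exact S.smul_mem _ (hmem _ _ i.2 hn)
    | zero => simp
    | add x y _ _ hx hy => rw [mul_add]; exact S.add_mem hx hy
    | smul r x _ hx => rw [mul_smul_comm]; exact S.smul_mem _ hx

end basic

/-- simultaneous eigenvectors with distinct characters are linearly independent -/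
theorem linInd_of_chars {F M I : Type} [Field F] [AddCommGroup M] [Module F M] [DecidableEq I]
    (m : I → M) (hm : ∀ i, m i ≠ 0)
    (sep : ∀ i j, i ≠ j → ∃ (φ : M →ₗ[F] M) (μ : I → F), (∀ l, φ (m l) = μ l • m l) ∧ μ i ≠ μ j) :
    LinearIndependent F m := by
  have key : ∀ (s : Finset I) (j : I), j ∉ s →
      ∃ (φ : M →ₗ[F] M) (μ : I → F), (∀ l, φ (m l) = μ l • m l) ∧ (∀ i ∈ s, μ i = 0) ∧ μ j ≠ 0 := by
    intro s
    induction s using Finset.induction with
    | empty =>
      intro j _
      exact ⟨LinearMap.id, fun _ => 1, fun l => by simp, fun i hi => absurd hi (by simp), one_ne_zero⟩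
    | insert i s hi ih =>
      intro j hj
      rw [Finset.mem_insert, not_or] at hj
      obtain ⟨φ, μ, h1, h2, h3⟩ := ih j hj.2
      obtain ⟨ψ, ν, g1, g2⟩ := sep i j (fun h => hj.1 h.symm)
      refine ⟨φ ∘ₗ (ψ - ν i • (LinearMap.id : M →ₗ[F] M)), fun l => (ν l - ν i) * μ l, ?_, ?_, ?_⟩
      · intro l
        have : (ψ - ν i • (LinearMap.id : M →ₗ[F] M)) (m l) = (ν l - ν i) • m l := by
          simp [g1, sub_smul]
        rw [LinearMap.comp_apply, this, map_smul, h1, smul_smul]
      · intro l hl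
        rcases Finset.mem_insert.1 hl with rfl | hl
        · simp
        · simp [h2 l hl]
      · exact mul_ne_zero (sub_ne_zero.2 (Ne.symm g2)) h3
  rw [linearIndependent_iff']
  intro s g hg i hi
  obtain ⟨φ, μ, h1, h2, h3⟩ := key (s.erase i) i (by simp)
  have h4 := congrArg φ hg
  rw [map_sum, map_zero, Finset.sum_eq_single i] at h4
  · rw [map_smul, h1, smul_smul] at h4
    have h5 := (smul_eq_zero.1 h4).resolve_right (hm i)
    exact (mul_eq_zero.1 h5).resolve_right h3
  · intro l hl hne
    rw [map_smul, h1, h2 l (Finset.mem_erase.2 ⟨hne, hl⟩)]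
    simp
  · intro h; exact absurd hi h

end Pool.Y109S
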